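import Pool.Agent.FS.RegMate.B

set_option autoImplicit false

open Finset PowerSeries
open Pool.Agent.Lib.MP_8cb124_co Pool.Agent.FS.FourHole

namespace Pool.Agent.FS.FewQuads

variable {V : Type} [Fintype V] [DecidableEq V] (G : SimpleGraph V) [DecidableRel G.Adj]

/-- indicator of adjacency -/
def ea (x y : V) : ℤ := if G.Adj x y then 1 else 0

/-- indicator of being different -/
def nq (x y : V) : ℤ := if x = y then 0 else 1

/-- indicator of a closed quadrilateral -/
def qd (p q r s : V) : ℤ := ea G p q * ea G q r * ea G r s * ea G s p * nq p r * nq q s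

/-- three times the induced quadrilaterals minus twice the complete ones -/
def wt (p q r s : V) : ℤ :=
  qd G p q r s * (3 * ((1 - ea G p r) * (1 - ea G q s)) - 2 * (ea G p r * ea G q s))

omit [Fintype V] [DecidableEq V] in
lemma ea_symm (x y : V) : ea G x y = ea G y x := by simp only [ea, G.adj_comm]

omit [Fintype V] [DecidableEq V] in
lemma ea_self (x : V) : ea G x x = 0 := by simp [ea]

omit [Fintype V] [DecidableEq V] in
lemma ea_cases (x y : V) : ea G x y = 0 ∨ ea G x y = 1 := by unfold ea; split_ifs <;> simp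

omit [Fintype V] in
lemma link4 {N : Finset V} (h : N.card = 4) :
    ∑ q ∈ N, ∑ r ∈ N, ∑ s ∈ N, ea G q r * ea G r s * ea G q s + 6 * ∑ q ∈ N, ∑ r ∈ N, ea G q r ≤
      3 * ∑ q ∈ N, ∑ r ∈ N, ∑ s ∈ N, ea G q r * ea G r s * nq q s + 24 := by
  obtain ⟨a, b, c, d, ab, ac, ad, bc, bd, cd, rfl⟩ := card_eq_four.mp h
  have s4 : ∀ f : V → ℤ, ∑ x ∈ ({a, b, c, d} : Finset V), f x = f a + f b + f c + f d := fun f => by
    rw [sum_insert (by simp [*]), sum_insert (by simp [*]), sum_pair cd]; ring
  simp only [s4, ea_self, nq, if_true, if_neg ab, if_neg ac, if_neg ad, if_neg bc, if_neg bd,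
    if_neg cd, if_neg ab.symm, if_neg ac.symm, if_neg ad.symm, if_neg bc.symm, if_neg bd.symm,
    if_neg cd.symm, ea_symm G b a, ea_symm G c a, ea_symm G d a, ea_symm G c b, ea_symm G d b,
    ea_symm G d c]
  rcases ea_cases G a b with h1 | h1 <;> rcases ea_cases G a c with h2 | h2 <;>
    rcases ea_cases G a d with h3 | h3 <;> rcases ea_cases G b c with h4 | h4 <;>
    rcases ea_cases G b d with h5 | h5 <;> rcases ea_cases G c d with h6 | h6 <;>
    rw [h1, h2, h3, h4, h5, h6] <;> decide

omit [Fintype V] in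
lemma quad4 {a b c d : V} (ab : a ≠ b) (ac : a ≠ c) (ad : a ≠ d) (bc : b ≠ c) (bd : b ≠ d)
    (cd : c ≠ d) :
    24 * (ea G a b * ea G b c * ea G c d * ea G a d * (1 - ea G a c) * (1 - ea G b d)) -
      48 * (ea G a b * ea G a c * ea G a d * ea G b c * ea G b d * ea G c d) ≤
    ∑ p ∈ ({a, b, c, d} : Finset V), ∑ q ∈ ({a, b, c, d} : Finset V),
      ∑ r ∈ ({a, b, c, d} : Finset V), ∑ s ∈ ({a, b, c, d} : Finset V), wt G p q r s := by
  have s4 : ∀ f : V → ℤ, ∑ x ∈ ({a, b, c, d} : Finset V), f x = f a + f b + f c + f d := fun f => by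
    rw [sum_insert (by simp [*]), sum_insert (by simp [*]), sum_pair cd]; ring
  simp only [s4, wt, qd, ea_self, nq, if_true, if_neg ab, if_neg ac, if_neg ad, if_neg bc,
    if_neg bd, if_neg cd, if_neg ab.symm, if_neg ac.symm, if_neg ad.symm, if_neg bc.symm,
    if_neg bd.symm, if_neg cd.symm, ea_symm G b a, ea_symm G c a, ea_symm G d a, ea_symm G c b,
    ea_symm G d b, ea_symm G d c, mul_zero, zero_mul, add_zero, zero_add, mul_one]
  rcases ea_cases G a b with h1 | h1 <;> rcases ea_cases G a c with h2 | h2 <;>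
    rcases ea_cases G a d with h3 | h3 <;> rcases ea_cases G b c with h4 | h4 <;>
    rcases ea_cases G b d with h5 | h5 <;> rcases ea_cases G c d with h6 | h6 <;>
    rw [h1, h2, h3, h4, h5, h6] <;> decide

omit [Fintype V] in
lemma wt_card {p q r s : V} (h : wt G p q r s ≠ 0) : ({p, q, r, s} : Finset V).card = 4 := by
  have h1 : qd G p q r s ≠ 0 := left_ne_zero_of_mul h
  simp only [qd, ea, nq, ne_eq, mul_eq_zero, ite_eq_right_iff, ite_eq_left_iff, one_ne_zero,
    imp_false, not_or, not_not] at h1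
  obtain ⟨⟨⟨⟨⟨pq, qr⟩, rs⟩, sp⟩, pr⟩, qs⟩ := h1
  exact card_eq_four.mpr ⟨p, q, r, s, pq.ne, pr, sp.ne', qr.ne, qs, rs.ne, rfl⟩

lemma mob_le (S : Finset V) : 8 * mob (fun B => Lam 2 (-3) 1 0 (LL G B)) S ≤
    ((if S.card = 4 then ∑ p ∈ S, ∑ q ∈ S, ∑ r ∈ S, ∑ s ∈ S, wt G p q r s else 0 : ℤ) : ℚ) := by
  rcases lt_or_ge S.card 5 with h | h
  · by_cases hH : Hole G S
    · have h4 : S.card = 4 := by have := hH.four; omega
      have e : mob (fun B => Lam 2 (-3) 1 0 (LL G B)) S = 3 := by
        rw [mob_top fun B hB hne => ?_]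
        · obtain ⟨l, c, h1, rfl⟩ := hH
          rw [h1.card] at h4
          subst h4
          rw [LL, Lam_poly _ _ _ _ (-4) 6 (-3) 0 0 _ (by rw [h1.ZS]; push_cast; ring)]
          norm_num
        · have := card_lt_card (hB.ssubset_of_ne hne)
          exact val_SE G _ _ _ _ (small_SE B (by omega)) fun k hk => p3_zero k (by omega)
      obtain ⟨p, q, r, s, rfl, pq, qr, rs, sp, pr, qs, npr, nqs⟩ := hole4 G hH h4
      have := quad4 G pq.ne pr sp.ne' qr.ne qs rs.ne
      simp only [ea, if_pos pq, if_pos qr, if_pos rs, if_pos sp.symm, if_neg npr, if_neg nqs] at this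
      rw [e, if_pos h4]
      exact_mod_cast le_trans (by norm_num) this
    · rcases S.eq_empty_or_nonempty with rfl | hne
      · rw [mob_empty, LL_nil, Lam_zero]; simp
      obtain ⟨v, hv⟩ := SE_four G hH (by omega) S subset_rfl hne
      have h2 := NS_lt G hv.1
      rw [mob_simp G _ _ _ _ hv fun k hk => p3_zero k (by omega), Lam_lam]
      split_ifs with h4
      · obtain ⟨a, b, c, ab, ac, bc, e⟩ := card_eq_three.mp
          (show (S.erase v).card = 3 by rw [card_erase_of_mem hv.1, h4])
        have m : ∀ x ∈ ({a, b, c} : Finset V), v ≠ x := fun x hx =>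
          (mem_erase.mp (e ▸ hx)).1.symm
        have eS : S = {v, a, b, c} := by rw [← e, insert_erase hv.1]
        have := quad4 G (m a (by simp)) (m b (by simp)) (m c (by simp)) ab ac bc
        rw [← eS] at this
        refine le_trans ?_ (Int.cast_le.mpr this)
        have hd : ((NS G S v).card : ℤ) = ea G v a + ea G v b + ea G v c := by
          rw [NS, card_filter, eS, sum_insert (by simpa using ⟨m a (by simp), m b (by simp),
            m c (by simp)⟩), sum_insert (by simp [*]), sum_pair bc]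
          simp [ea, add_assoc]
        have hd' : ((NS G S v).card : ℚ) = ((ea G v a + ea G v b + ea G v c : ℤ) : ℚ) := by
          exact_mod_cast hd
        rw [hd']
        rcases ea_cases G v a with h1 | h1 <;> rcases ea_cases G v b with h2 | h2 <;>
          rcases ea_cases G v c with h3 | h3 <;> rcases ea_cases G a b with h4 | h4 <;>
          rcases ea_cases G a c with h5 | h5 <;> rcases ea_cases G b c with h6 | h6 <;>
          rw [h1, h2, h3, h4, h5, h6] <;> norm_num
      · generalize (NS G S v).card = d at *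
        have h3 : d < 3 := by omega
        interval_cases d <;> norm_num
  · rw [if_neg (by omega), (Lam_mob _ _ _ _ S (LL G)).trans (Lam_dvd4 _ _ _
      ((pow_dvd_pow X (by omega)).trans (dvd_mob_LL G S)))]
    simp

lemma wt_nonneg (h0 : Lam 2 (-3) 1 0 (LL G univ) = 0) :
    0 ≤ ∑ p, ∑ q, ∑ r, ∑ s, wt G p q r s := by
  rw [← mob_inv univ fun B => Lam 2 (-3) 1 0 (LL G B)] at h0
  have h1 := sum_le_sum fun S (_ : S ∈ (univ : Finset V).powerset) => mob_le G S
  rw [← mul_sum, h0, mul_zero, ← Int.cast_sum] at h1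
  refine le_trans (by exact_mod_cast h1) (le_of_eq ?_)
  have e : ∀ S : Finset V,
      (if S.card = 4 then ∑ p ∈ S, ∑ q ∈ S, ∑ r ∈ S, ∑ s ∈ S, wt G p q r s else 0 : ℤ) =
      ∑ p, ∑ q, ∑ r, ∑ s, if ({p, q, r, s} : Finset V) = S then wt G p q r s else 0 := fun S => by
    have e1 : ∀ f : V → ℤ, ∑ x ∈ S, f x = ∑ x, (if x ∈ S then 1 else 0) * f x := fun f => by
      simp
    rw [← boole_mul]
    simp only [e1, mul_sum]
    refine sum_congr rfl fun p _ => sum_congr rfl fun q _ => sum_congr rfl fun r _ =>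
      sum_congr rfl fun s _ => ?_
    by_cases hw : wt G p q r s = 0
    · simp [hw]
    have h4 := wt_card G hw
    by_cases hS : ({p, q, r, s} : Finset V) = S
    · subst hS
      simp [h4]
    · rw [if_neg hS]
      by_contra hne
      simp only [mul_eq_zero, ite_eq_right_iff, one_ne_zero, imp_false, not_or, not_not] at hne
      exact hS (eq_of_subset_of_card_le (by simp [insert_subset_iff, hne]) (by omega))
  simp only [e]
  rw [sum_comm]
  refine sum_congr rfl fun p _ => ?_
  rw [sum_comm]
  refine sum_congr rfl fun q _ => ?_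
  rw [sum_comm]
  refine sum_congr rfl fun r _ => ?_
  rw [sum_comm]
  refine sum_congr rfl fun s _ => ?_
  simp

end Pool.Agent.FS.FewQuads
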