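import Pool.Agent.FS.FewQuads.A

set_option autoImplicit false

open Finset PowerSeries
open Pool.Agent.Lib.MP_8cb124_co Pool.Agent.FS.FourHole Pool.Agent.FS.RegMate

namespace Pool.Agent.FS.FewQuads

variable {V : Type} [Fintype V] [DecidableEq V] (G : SimpleGraph V) [DecidableRel G.Adj]

omit [DecidableEq V] in
lemma sum_NS (p : V) (f : V → ℤ) : ∑ x ∈ NS G univ p, f x = ∑ x, ea G p x * f x := by
  simp [NS, sum_filter, ea]

lemma vertex (p : V) (h : (NS G univ p).card = 4) :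
    ∑ q, ∑ r, ∑ s, qd G p q r s * (ea G p r * ea G q s) + 6 * (m2 G (NS G univ p) : ℤ) ≤
      3 * ∑ q, ∑ r, ∑ s, qd G p q r s * ea G p r + 24 := by
  have h1 := link4 G h
  have e0 : (m2 G (NS G univ p) : ℤ) = ∑ q ∈ NS G univ p, ∑ r ∈ NS G univ p, ea G q r := by
    simp only [m2, ea]
    push_cast
    rfl
  have e1 : ∑ q, ∑ r, ∑ s, qd G p q r s * (ea G p r * ea G q s) = ∑ q ∈ NS G univ p,
      ∑ r ∈ NS G univ p, ∑ s ∈ NS G univ p, ea G q r * ea G r s * ea G q s := by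
    simp only [sum_NS, mul_sum]
    refine sum_congr rfl fun q _ => sum_congr rfl fun r _ => sum_congr rfl fun s _ => ?_
    rw [qd, ea_symm G s p]
    by_cases h1 : G.Adj p r
    · by_cases h2 : G.Adj q s
      · simp only [ea, nq, if_pos h1, if_pos h2, if_neg h1.ne, if_neg h2.ne]; ring
      · simp only [ea, if_neg h2]; ring
    · simp only [ea, if_neg h1]; ring
  have e2 : ∑ q, ∑ r, ∑ s, qd G p q r s * ea G p r = ∑ q ∈ NS G univ p,
      ∑ r ∈ NS G univ p, ∑ s ∈ NS G univ p, ea G q r * ea G r s * nq q s := by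
    simp only [sum_NS, mul_sum]
    refine sum_congr rfl fun q _ => sum_congr rfl fun r _ => sum_congr rfl fun s _ => ?_
    rw [qd, ea_symm G s p]
    by_cases h1 : G.Adj p r
    · have : nq p r = 1 := if_neg h1.ne
      rw [this]; ring
    · have : ea G p r = 0 := if_neg h1
      rw [this]; ring
  rw [e0, e1, e2]
  exact h1

lemma swap : ∑ p, ∑ q, ∑ r, ∑ s, qd G p q r s * ea G q s =
    ∑ p, ∑ q, ∑ r, ∑ s, qd G p q r s * ea G p r := by
  rw [sum_comm]
  refine sum_congr rfl fun q _ => sum_congr rfl fun p _ => ?_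
  rw [sum_comm]
  refine sum_congr rfl fun s _ => sum_congr rfl fun r _ => ?_
  rw [qd, qd, ea_symm G q p, ea_symm G p s, ea_symm G s r, ea_symm G r q]
  ring

lemma free (h0 : Lam 2 (-3) 1 0 (LL G univ) = 0) (h4 : ∀ v, (NS G univ v).card = 4)
    (ht : ∑ v, m2 G (NS G univ v) = 6 * Fintype.card V)
    (hq : ∑ p, ∑ q, ∑ r, ∑ s, qd G p q r s ≤ 8 * (Fintype.card V : ℤ)) : G.CliqueFree 4 := by
  intro t hT
  obtain ⟨a, b, c, d, ab, ac, ad, bc, bd, cd, rfl⟩ := card_eq_four.mp hT.card_eq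
  have adj : ∀ x ∈ ({a, b, c, d} : Finset V), ∀ y ∈ ({a, b, c, d} : Finset V), x ≠ y → G.Adj x y :=
    fun x hx y hy hxy => hT.isClique hx hy hxy
  have h1 := wt_nonneg G h0
  have h2 := sum_le_sum fun p (_ : p ∈ (univ : Finset V)) => vertex G p (h4 p)
  have ht' : ∑ v, (m2 G (NS G univ v) : ℤ) = 6 * (Fintype.card V : ℤ) := by exact_mod_cast ht
  rw [sum_add_distrib, sum_add_distrib, ← mul_sum, ← mul_sum, ht', sum_const, card_univ,
    nsmul_eq_mul] at h2
  have h3 : ∑ p, ∑ q, ∑ r, ∑ s, wt G p q r s = 3 * ∑ p, ∑ q, ∑ r, ∑ s, qd G p q r s -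
      3 * ∑ p, ∑ q, ∑ r, ∑ s, qd G p q r s * ea G p r -
      3 * ∑ p, ∑ q, ∑ r, ∑ s, qd G p q r s * ea G q s +
      ∑ p, ∑ q, ∑ r, ∑ s, qd G p q r s * (ea G p r * ea G q s) := by
    simp only [mul_sum, ← sum_sub_distrib, ← sum_add_distrib]
    refine sum_congr rfl fun p _ => sum_congr rfl fun q _ => sum_congr rfl fun r _ =>
      sum_congr rfl fun s _ => ?_
    rw [wt]; ring
  rw [swap] at h3
  have nn : ∀ p q r s, 0 ≤ qd G p q r s * (ea G p r * ea G q s) := fun p q r s => by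
    simp only [qd, ea, nq]
    positivity
  have h5 : qd G a b c d * (ea G a c * ea G b d) = 1 := by
    simp only [qd, ea, nq, if_neg ac, if_neg bd, if_pos (adj a (by simp) b (by simp) ab),
      if_pos (adj b (by simp) c (by simp) bc), if_pos (adj c (by simp) d (by simp) cd),
      if_pos (adj d (by simp) a (by simp) ad.symm), if_pos (adj a (by simp) c (by simp) ac),
      if_pos (adj b (by simp) d (by simp) bd), mul_one]
  have h6 : 1 ≤ ∑ p, ∑ q, ∑ r, ∑ s, qd G p q r s * (ea G p r * ea G q s) := by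
    rw [← h5]
    refine le_trans ?_ (single_le_sum (fun p _ => sum_nonneg fun q _ => sum_nonneg fun r _ =>
      sum_nonneg fun s _ => nn p q r s) (mem_univ a))
    refine le_trans ?_ (single_le_sum (fun q _ => sum_nonneg fun r _ =>
      sum_nonneg fun s _ => nn a q r s) (mem_univ b))
    refine le_trans ?_ (single_le_sum (fun r _ => sum_nonneg fun s _ => nn a b r s) (mem_univ c))
    exact single_le_sum (fun s _ => nn a b c s) (mem_univ d)
  linarith

theorem core {n : ℕ} (hn : 43 ≤ n) (V : Type) [Finite V] (G : SimpleGraph V)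
    (g1 : (∀ v, (G.neighborSet v).ncard ≤ 4) ∨ ∀ v, 4 ≤ (G.neighborSet v).ncard)
    (g2 : {x : V × V × V × V | G.Adj x.1 x.2.1 ∧ G.Adj x.2.1 x.2.2.1 ∧ G.Adj x.2.2.1 x.2.2.2 ∧
      G.Adj x.2.2.2 x.1 ∧ x.1 ≠ x.2.2.1 ∧ x.2.1 ≠ x.2.2.2}.ncard ≤ 8 * n)
    (h : ∀ k : ℕ, Nat.card (G.Coloring (Fin k)) = Nat.card ((Sq n).Coloring (Fin k))) :
    Nonempty (G ≃g Sq n) := by
  classical
  have : NeZero n := ⟨by omega⟩
  have := Fintype.ofFinite V
  obtain ⟨h1, h2⟩ := Zp_transfer (EE_ne G univ) (EE_ne (Sq n) univ) fun x => by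
    rw [← card_coloring, ← card_coloring, h]
  have hL : LL G univ = LL (Sq n) univ := by rw [LL, LL, ZS, ZS, h2]
  rw [ZMod.card] at h1
  obtain ⟨t1, t2⟩ := counts hL
  rw [Sq_m2 (by omega), m2_eq, ← h1] at t1
  rw [Sq_t6 (by omega), t6_eq, ← h1] at t2
  have e1 : ∀ v, (G.neighborSet v).ncard = (NS G univ v).card := fun v => by
    rw [← Set.ncard_coe_finset]
    exact congrArg Set.ncard (Set.ext fun x => by simp [mem_NS])
  simp only [e1] at g1
  refine main hn V G (Or.inr (free G ?_ (const_of _ 4 t1 g1) t2 ?_)) h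
  · rw [hL]
    exact Sq_zero hn _ _ _ _ (p3_zero 1 (by omega)) (p3_zero 2 (by omega))
  · rw [Set.ncard_eq_toFinset_card', Set.toFinset_setOf, card_filter] at g2
    simp only [Fintype.sum_prod_type] at g2
    rw [h1]
    refine le_trans (le_of_eq ?_) (show _ ≤ ((8 * n : ℕ) : ℤ) from Int.ofNat_le.mpr g2)
    push_cast
    refine sum_congr rfl fun p _ => sum_congr rfl fun q _ => sum_congr rfl fun r _ =>
      sum_congr rfl fun s _ => ?_
    simp only [qd, ea, nq, ite_and, ne_eq, ite_not]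
    split_ifs <;> rfl

end Pool.Agent.FS.FewQuads
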